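import Pool.Agent.H717.NL.Stmts2

/-! Task PAD: the continuant with decoupled sites. -/

set_option autoImplicit false

namespace Pool.Agent.H331.NL.Pad

open Polynomial Pool.Agent.H717.NL

theorem t_pad : S_pad := by
  intro a c n m t ha hc
  have step : ∀ k, n ≤ k → cont a c (k + 1) = cont a c k * (X - C t) := by
    intro k hk
    cases k with
    | zero =>
      rw [cont, cont, ha 0 hk, one_mul]
    | succ k =>
      rw [cont, ha (k + 1) hk, hc k hk, C_0, zero_mul, sub_zero, mul_comm]
  induction m with
  | zero => rw [add_zero, pow_zero, mul_one]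
  | succ m ih =>
    rw [← add_assoc, step (n + m) (Nat.le_add_right n m), ih, pow_succ, mul_assoc]

end Pool.Agent.H331.NL.Pad
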